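import Pool.Agent.Helper74.BS.St

set_option autoImplicit false

namespace Pool.Agent.Helper58.BS

open Pool.Agent.Helper73.DC Pool.Agent.Helper74.BS
open Pool.Agent.Helper83.PT (mpd)

theorem symAt_ch {α : Type} (w : List α) (i : ℕ) (a : α) (hi : 1 ≤ i) (h : w[i - 1]? = some a) :
    symAt w i = Sym.ch a := by
  unfold symAt
  rw [if_neg (by omega), h]

theorem symAt_rm {α : Type} (w : List α) (i : ℕ) (hi : i = w.length + 1) :
    symAt w i = Sym.rm := by
  unfold symAt
  have h : w[i - 1]? = none := List.getElem?_eq_none (by omega)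
  rw [if_neg (by omega), h]

/-- The configurations that belong together. -/
def Rel {α : Type} (w : List α) (e : Bool) (p : Fin 1 → ℕ) (v : List α) : Prop :=
  1 ≤ p 0 ∧ p 0 ≤ w.length + 1 ∧ v = w.drop (p 0 - 1) ∧ (e = true ↔ p 0 = w.length + 1)

/-- The configuration of the automaton with one head. -/
def cf {α : Type} [Fintype α] (M : DPDA α) (q : M.Q) (o : Option α) (e : Bool) (p : Fin 1 → ℕ) :
    (mpd M).Q × (Fin (mpd M).k → ℕ) := (((q, o), e), p)

theorem mv_ep {α : Type} [Fintype α] (M : DPDA α) (w : List α) (q q' : M.Q) (Z : M.Γ)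
    (γ : List M.Γ) (e : Bool) (p : Fin 1 → ℕ) (v : List α) (hR : Rel w e p v)
    (htr : M.ep q Z = some (q', γ)) :
    mmv (mpd M) w (cf M q none e p) Z (cf M q' none e p) γ := by
  obtain ⟨h1, h2, hv, he⟩ := hR
  refine ⟨(fun _ => Mv.S : Fin 1 → Mv), ?_, ?_⟩
  · change (match symAt w (p 0) with
      | Sym.lm => some ((((q, none), e) : (M.Q × Option α) × Bool), (fun _ => Mv.R : Fin 1 → Mv), [Z])
      | Sym.rm =>
        if e = false then some (((q, none), true), fun _ => Mv.S, [Z])
        else match M.ep q Z with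
          | none => none
          | some (q', γ) => some (((q', none), true), fun _ => Mv.S, γ)
      | Sym.ch a =>
        match M.ep q Z with
        | some (q', γ) => some (((q', none), e), fun _ => Mv.S, γ)
        | none => match M.tr q Z a with
          | none => none
          | some _ => some (((q, some a), false), fun _ => Mv.R, [Z])) = _
    by_cases hp : p 0 = w.length + 1
    · rw [symAt_rm w _ hp]
      have : e = true := he.2 hp
      subst this
      simp only [htr]
      rfl
    · have hlt : p 0 - 1 < w.length := by omega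
      rw [symAt_ch w (p 0) _ h1 (List.getElem?_eq_getElem hlt)]
      simp only [htr]
      rfl
  · funext j
    change p j = min (p j) (w.length + 1)
    have : j = (0 : Fin 1) := Subsingleton.elim (α := Fin 1) _ _
    subst this
    omega

theorem mv_rd {α : Type} [Fintype α] (M : DPDA α) (w : List α) (q q' : M.Q) (Z : M.Γ)
    (γ : List M.Γ) (e : Bool) (p : Fin 1 → ℕ) (a : α) (v : List α) (hR : Rel w e p (a :: v))
    (htr : M.tr q Z a = some (q', γ)) :
    ∃ (e' : Bool) (p' : Fin 1 → ℕ), Rel w e' p' v ∧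
      mmv (mpd M) w (cf M q none e p) Z (cf M q (some a) false p') [Z] ∧
      mmv (mpd M) w (cf M q (some a) false p') Z (cf M q' none e' p') γ := by
  obtain ⟨h1, h2, hv, he⟩ := hR
  have hlt : p 0 - 1 < w.length := by
    by_contra hlt
    rw [List.drop_eq_nil_iff.2 (not_lt.1 hlt)] at hv
    exact List.cons_ne_nil _ _ hv
  rw [List.drop_eq_getElem_cons hlt] at hv
  have hv2 := List.cons.inj hv
  have ha : w[p 0 - 1]? = some a := by
    rw [List.getElem?_eq_getElem hlt, hv2.1]
  have hep : M.ep q Z = none := by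
    by_contra hne
    have := M.det q Z hne a
    rw [this] at htr
    exact absurd htr (by simp)
  have he1 : e = false := by
    cases e with
    | false => rfl
    | true => have := he.1 rfl; omega
  subst he1
  have hsym : symAt w (p 0) = Sym.ch a := symAt_ch w _ a h1 ha
  let p1 : Fin 1 → ℕ := fun _ => p 0 + 1
  refine ⟨decide (p 0 = w.length), p1, ⟨?_, ?_, ?_, ?_⟩, ?_, ?_⟩
  · simp [p1]
  · simp only [p1]
    omega
  · change v = w.drop (p 0 + 1 - 1)
    rw [hv2.2]
    congr 1
    omega
  · simp only [p1, decide_eq_true_eq]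
    omega
  · refine ⟨(fun _ => Mv.R : Fin 1 → Mv), ?_, ?_⟩
    · change (match symAt w (p 0) with
        | Sym.lm => some ((((q, none), false) : (M.Q × Option α) × Bool), (fun _ => Mv.R : Fin 1 → Mv), [Z])
        | Sym.rm =>
          if (false : Bool) = false then some (((q, none), true), fun _ => Mv.S, [Z])
          else match M.ep q Z with
            | none => none
            | some (q', γ) => some (((q', none), true), fun _ => Mv.S, γ)
        | Sym.ch a =>
          match M.ep q Z with
          | some (q', γ) => some (((q', none), false), fun _ => Mv.S, γ)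
          | none => match M.tr q Z a with
            | none => none
            | some _ => some (((q, some a), false), fun _ => Mv.R, [Z])) = _
      rw [hsym]
      simp only [hep, htr]
      rfl
    · funext j
      change p 0 + 1 = min (p j + 1) (w.length + 1)
      have : j = (0 : Fin 1) := Subsingleton.elim (α := Fin 1) _ _
      subst this
      omega
  · refine ⟨(fun _ => Mv.S : Fin 1 → Mv), ?_, ?_⟩
    · change (match M.tr q Z a with
        | none => none
        | some (q', γ) => match symAt w (p 0 + 1) with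
          | Sym.rm => some ((((q', none), true) : (M.Q × Option α) × Bool), (fun _ => Mv.S : Fin 1 → Mv), γ)
          | _ => some (((q', none), false), fun _ => Mv.S, γ)) = _
      rw [htr]
      by_cases hpl : p 0 = w.length
      · rw [symAt_rm w (p 0 + 1) (by omega), decide_eq_true hpl]
        rfl
      · have hlt2 : p 0 + 1 - 1 < w.length := by omega
        rw [symAt_ch w (p 0 + 1) _ (by omega) (List.getElem?_eq_getElem hlt2),
          decide_eq_false hpl]
        rfl
    · funext j
      change p 0 + 1 = min (p 0 + 1) (w.length + 1)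
      omega

theorem popsSim (hFO : StFO) {α : Type} [Fintype α] (M : DPDA α) (w : List α)
    (c : M.Q × List α) (β : List M.Γ) (c' : M.Q × List α) (f : Fo)
    (h : Pops (dmv M) c β c' f) : ∀ (e : Bool) (p : Fin 1 → ℕ), Rel w e p c.2 →
    ∃ (e' : Bool) (p' : Fin 1 → ℕ) (F : Fo), Rel w e' p' c'.2 ∧
      Pops (mmv (mpd M) w) (cf M c.1 none e p) β (cf M c'.1 none e' p') F ∧
      ∀ K j, cn K j F ≤ cn K j f := by
  induction h with
  | nil c =>
    intro e p hR
    exact ⟨e, p, Fo.nil, hR, Pops.nil _, fun _ _ => le_rfl⟩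
  | cons c c1 c2 c3 Z γ β f g hmv _ _ ih1 ih2 =>
    intro e p hR
    rcases hmv with ⟨a, hc, htr⟩ | ⟨hc, htr⟩
    · rw [hc] at hR
      obtain ⟨e1, p1, hR1, hm1, hm2⟩ := mv_rd M w c.1 c1.1 Z γ e p a c1.2 hR htr
      obtain ⟨e2, p2, F, hR2, hP, hF⟩ := ih1 e1 p1 hR1
      obtain ⟨e3, p3, G, hR3, hQ, hG⟩ := ih2 e2 p2 hR2
      refine ⟨e3, p3, Fo.nd (Fo.nd F Fo.nil) G, hR3, ?_, ?_⟩
      · exact Pops.cons _ _ _ _ Z [Z] β _ _ hm1 (Pops.cons _ _ _ _ Z γ [] _ _ hm2 hP (Pops.nil _)) hQ
      · intro K j
        rw [hFO.2.2.1 K j F G]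
        exact hFO.2.1 F G f g hF hG K j
    · rw [hc] at hR
      obtain ⟨e2, p2, F, hR2, hP, hF⟩ := ih1 e p hR
      obtain ⟨e3, p3, G, hR3, hQ, hG⟩ := ih2 e2 p2 hR2
      refine ⟨e3, p3, Fo.nd F G, hR3, ?_, fun K j => hFO.2.1 F G f g hF hG K j⟩
      exact Pops.cons _ _ _ _ Z γ β _ _ (mv_ep M w c.1 c1.1 Z γ e p _ hR htr) hP hQ

theorem accsSim (hFO : StFO) {α : Type} [Fintype α] (M : DPDA α) (w : List α)
    (c : M.Q × List α) (β : List M.Γ) (f : Fo)
    (h : Accs (dmv M) (fun c => M.acc c.1 ∧ c.2 = []) c β f) :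
    ∀ (e : Bool) (p : Fin 1 → ℕ), Rel w e p c.2 →
    ∃ F : Fo, Accs (mmv (mpd M) w) (fun c => (mpd M).acc c.1) (cf M c.1 none e p) β F ∧
      ∀ K j, cn K j F ≤ cn K j f := by
  induction h with
  | fin c β hF =>
    intro e p hR
    obtain ⟨h1, h2, hv, he⟩ := hR
    have hl : w.length ≤ p 0 - 1 := List.drop_eq_nil_iff.1 (hv.symm.trans hF.2)
    have hp : p 0 = w.length + 1 := by omega
    have he1 : e = true := he.2 hp
    subst he1
    exact ⟨Fo.nil, Accs.fin _ _ ⟨hF.1, rfl, rfl⟩, fun _ _ => le_rfl⟩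
  | down c c1 Z γ β f hmv _ ih =>
    intro e p hR
    rcases hmv with ⟨a, hc, htr⟩ | ⟨hc, htr⟩
    · rw [hc] at hR
      obtain ⟨e1, p1, hR1, hm1, hm2⟩ := mv_rd M w c.1 c1.1 Z γ e p a c1.2 hR htr
      obtain ⟨F, hA, hF⟩ := ih e1 p1 hR1
      refine ⟨Fo.nd (Fo.nd F Fo.nil) Fo.nil, ?_, ?_⟩
      · exact Accs.down _ _ Z [Z] β _ hm1 (Accs.down _ _ Z γ [] _ hm2 hA)
      · intro K j
        rw [hFO.2.2.1 K j F Fo.nil]
        exact hFO.2.1 F Fo.nil f Fo.nil hF (fun _ _ => le_rfl) K j
    · rw [hc] at hR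
      obtain ⟨F, hA, hF⟩ := ih e p hR
      refine ⟨Fo.nd F Fo.nil, ?_, fun K j => hFO.2.1 F Fo.nil f Fo.nil hF (fun _ _ => le_rfl) K j⟩
      exact Accs.down _ _ Z γ β _ (mv_ep M w c.1 c1.1 Z γ e p _ hR htr) hA
  | next c c1 c2 Z γ β f g hmv hP _ ih =>
    intro e p hR
    rcases hmv with ⟨a, hc, htr⟩ | ⟨hc, htr⟩
    · rw [hc] at hR
      obtain ⟨e1, p1, hR1, hm1, hm2⟩ := mv_rd M w c.1 c1.1 Z γ e p a c1.2 hR htr
      obtain ⟨e2, p2, F, hR2, hP2, hF⟩ := popsSim hFO M w _ _ _ _ hP e1 p1 hR1
      obtain ⟨G, hA, hG⟩ := ih e2 p2 hR2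
      refine ⟨Fo.nd (Fo.nd F Fo.nil) G, ?_, ?_⟩
      · exact Accs.next _ _ _ Z [Z] β _ _ hm1 (Pops.cons _ _ _ _ Z γ [] _ _ hm2 hP2 (Pops.nil _)) hA
      · intro K j
        rw [hFO.2.2.1 K j F G]
        exact hFO.2.1 F G f g hF hG K j
    · rw [hc] at hR
      obtain ⟨e2, p2, F, hR2, hP2, hF⟩ := popsSim hFO M w _ _ _ _ hP e p hR
      obtain ⟨G, hA, hG⟩ := ih e2 p2 hR2
      refine ⟨Fo.nd F G, ?_, fun K j => hFO.2.1 F G f g hF hG K j⟩
      exact Accs.next _ _ _ Z γ β _ _ (mv_ep M w c.1 c1.1 Z γ e p _ hR htr) hP2 hA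

theorem accs_wd {C G : Type} (mv : C → G → C → List G → Prop) (F : C → Prop) (c : C)
    (β : List G) (f : Fo) (h : Accs mv F c β f) : wd f ≤ β.length := by
  induction h with
  | fin c β _ => exact Nat.zero_le _
  | down c c1 Z γ β f _ _ _ =>
    change 0 + 1 ≤ β.length + 1
    omega
  | next c c1 c2 Z γ β f g _ _ _ ih =>
    change wd g + 1 ≤ β.length + 1
    omega

theorem hD2 (hFO : StFO) : Pool.Agent.Helper74.BS.StD2 := by
  intro α _ M w f hf
  let p1 : Fin 1 → ℕ := fun _ => 1
  have hm0 : mmv (mpd M) w (cf M M.q0 none false (fun _ => 0)) M.z0 (cf M M.q0 none false p1)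
      [M.z0] := by
    refine ⟨(fun _ => Mv.R : Fin 1 → Mv), ?_, ?_⟩
    · change (match symAt w 0 with
        | Sym.lm => some ((((M.q0, none), false) : (M.Q × Option α) × Bool),
            (fun _ => Mv.R : Fin 1 → Mv), [M.z0])
        | Sym.rm =>
          if (false : Bool) = false then some (((M.q0, none), true), fun _ => Mv.S, [M.z0])
          else match M.ep M.q0 M.z0 with
            | none => none
            | some (q', γ) => some (((q', none), true), fun _ => Mv.S, γ)
        | Sym.ch a =>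
          match M.ep M.q0 M.z0 with
          | some (q', γ) => some (((q', none), false), fun _ => Mv.S, γ)
          | none => match M.tr M.q0 M.z0 a with
            | none => none
            | some _ => some (((M.q0, some a), false), fun _ => Mv.R, [M.z0])) = _
      have h0 : symAt w 0 = Sym.lm := by simp [symAt]
      rw [h0]
      rfl
    · funext j
      change 1 = min (0 + 1) (w.length + 1)
      omega
  have hfin : ∀ F : Fo, wd F ≤ 1 → (∀ K j, cn K j F ≤ cn K j f) →
      ∀ K j, 2 ≤ K → cn K (j + 1) (Fo.nd F Fo.nil) ≤ cn K (j + 1) f := by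
    intro F hw hF K j hK
    rw [hFO.2.2.2.2.2.1 K j F hK hw]
    exact hF K (j + 1)
  by_cases hw : w = []
  · have hR : Rel w true p1 w := by
      subst hw
      refine ⟨le_rfl, by simp [p1], by simp, by simp [p1]⟩
    obtain ⟨F, hA, hF⟩ := accsSim hFO M w _ _ _ hf true p1 hR
    have hwd : wd F ≤ 1 := accs_wd _ _ _ _ _ hA
    have hm1 : mmv (mpd M) w (cf M M.q0 none false p1) M.z0 (cf M M.q0 none true p1) [M.z0] := by
      refine ⟨(fun _ => Mv.S : Fin 1 → Mv), ?_, ?_⟩
      · change (match symAt w 1 with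
          | Sym.lm => some ((((M.q0, none), false) : (M.Q × Option α) × Bool),
              (fun _ => Mv.R : Fin 1 → Mv), [M.z0])
          | Sym.rm =>
            if (false : Bool) = false then some (((M.q0, none), true), fun _ => Mv.S, [M.z0])
            else match M.ep M.q0 M.z0 with
              | none => none
              | some (q', γ) => some (((q', none), true), fun _ => Mv.S, γ)
          | Sym.ch a =>
            match M.ep M.q0 M.z0 with
            | some (q', γ) => some (((q', none), false), fun _ => Mv.S, γ)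
            | none => match M.tr M.q0 M.z0 a with
              | none => none
              | some _ => some (((M.q0, some a), false), fun _ => Mv.R, [M.z0])) = _
        have h0 : symAt w 1 = Sym.rm := symAt_rm w 1 (by rw [hw]; rfl)
        rw [h0]
        rfl
      · funext j
        change 1 = min 1 (w.length + 1)
        omega
    refine ⟨Fo.nd (Fo.nd F Fo.nil) Fo.nil, ?_, ?_⟩
    · exact Accs.down _ _ M.z0 [M.z0] [] _ hm0 (Accs.down _ _ M.z0 [M.z0] [] _ hm1 hA)
    · intro K j hK
      rw [hFO.2.2.1 K (j + 1) F Fo.nil]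
      exact hfin F hwd hF K j hK
  · have hlen : w.length ≠ 0 := fun h => hw (List.eq_nil_of_length_eq_zero h)
    have hR : Rel w false p1 w := by
      refine ⟨le_rfl, by simp [p1], by simp [p1], ?_⟩
      simp only [p1]
      constructor
      · intro h
        exact absurd h (by simp)
      · intro h
        omega
    obtain ⟨F, hA, hF⟩ := accsSim hFO M w _ _ _ hf false p1 hR
    have hwd : wd F ≤ 1 := accs_wd _ _ _ _ _ hA
    exact ⟨Fo.nd F Fo.nil, Accs.down _ _ M.z0 [M.z0] [] _ hm0 hA, hfin F hwd hF⟩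

end Pool.Agent.Helper58.BS
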